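import Pool.Agent.W203.WS.Stm2

set_option autoImplicit false
set_option linter.all false

open MeasureTheory Finset Filter Topology

namespace Pool.Agent.W918.WT

open Pool.Agent.W203.WS

theorem norm_e (x : ℝ) : ‖e x‖ = 1 := by
  unfold e
  have h : 2 * (Real.pi : ℂ) * Complex.I * (x : ℂ) = ((2 * Real.pi * x : ℝ) : ℂ) * Complex.I := by
    push_cast
    ring
  rw [h, Complex.norm_exp_ofReal_mul_I]

theorem norm_S (k P : ℕ) (t θ : ℝ) : ‖S k P t θ‖ ≤ 3 * P := by
  unfold S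
  refine (norm_sum_le _ _).trans ?_
  simp only [norm_e]
  rw [Finset.sum_const, Nat.card_Ico, nsmul_eq_mul, mul_one]
  have : 4 * P - P = 3 * P := by omega
  rw [this]
  push_cast
  exact le_refl _

theorem cont_S (k P : ℕ) (t : ℝ) : Continuous (fun θ => S k P t θ) := by
  unfold S e
  fun_prop

theorem norm_aa {σ : ℝ} (hσ : 0 < σ) (t : ℝ) : ‖aa σ t‖ = σ * Real.exp (-Real.pi * (σ * t) ^ 2) := by
  unfold aa
  rw [norm_mul, norm_e, mul_one, Complex.norm_real, Real.norm_eq_abs, abs_of_pos (by positivity)]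

theorem habs {t : ℝ} (ht : |t| ≤ 1 / 2) {j : ℤ} (hj : j ≠ 0) :
    (j.natAbs : ℝ) / 2 ≤ |t + j| ∧ 1 / 2 ≤ |t + j| := by
  have h1 : (1 : ℝ) ≤ |(j : ℝ)| := by
    have : 1 ≤ |j| := Int.one_le_abs hj
    exact_mod_cast this
  have h2 : ((j.natAbs : ℕ) : ℝ) = |(j : ℝ)| := by
    rw [Nat.cast_natAbs, Int.cast_abs]
  have h3 : |(j : ℝ)| - |t| ≤ |t + j| := by
    have := abs_sub_abs_le_abs_sub (j : ℝ) (-t)
    rw [abs_neg, sub_neg_eq_add, add_comm] at this
    exact this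
  rw [h2]
  constructor <;> linarith

noncomputable def c (σ t : ℝ) (j : ℤ) : ℝ := if j = 0 then 0 else ‖aa σ (t + j)‖

theorem c_nonneg (σ t : ℝ) (j : ℤ) : 0 ≤ c σ t j := by
  unfold c
  split_ifs
  · exact le_refl _
  · exact norm_nonneg _

theorem c_le {σ t : ℝ} (hσ : 0 < σ) (ht : |t| ≤ 1 / 2) (j : ℤ) :
    c σ t j ≤ Real.exp (Real.pi / 4) * (σ * (Real.exp (-(Real.pi / 2 * σ))) ^ j.natAbs) := by
  unfold c
  split_ifs with hj
  · positivity
  · rw [norm_aa hσ]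
    obtain ⟨h1, h2⟩ := habs ht hj
    have h3 : -Real.pi * (σ * (t + j)) ^ 2 ≤ Real.pi / 4 + (j.natAbs : ℝ) * (-(Real.pi / 2 * σ)) := by
      have h4 : (σ * ((j.natAbs : ℝ) / 2)) ^ 2 ≤ (σ * (t + j)) ^ 2 := by
        rw [mul_pow, mul_pow, ← sq_abs (t + (j : ℝ))]
        apply mul_le_mul_of_nonneg_left _ (sq_nonneg _)
        exact pow_le_pow_left₀ (by positivity) h1 2
      have h5 : σ * ((j.natAbs : ℝ) / 2) - 1 / 4 ≤ (σ * ((j.natAbs : ℝ) / 2)) ^ 2 := by
        nlinarith [sq_nonneg (σ * ((j.natAbs : ℝ) / 2) - 1 / 2)]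
      have h6 := mul_le_mul_of_nonneg_left (h5.trans h4) Real.pi_pos.le
      linarith
    calc σ * Real.exp (-Real.pi * (σ * (t + j)) ^ 2)
        ≤ σ * Real.exp (Real.pi / 4 + (j.natAbs : ℝ) * (-(Real.pi / 2 * σ))) :=
          mul_le_mul_of_nonneg_left (Real.exp_le_exp.2 h3) hσ.le
      _ = _ := by
          rw [Real.exp_add, Real.exp_nat_mul]
          ring

theorem sum_r {σ : ℝ} (hσ : 0 < σ) (hσ1 : σ ≤ 1) :
    ∃ W : ℝ, HasSum (fun j : ℤ => σ * (Real.exp (-(Real.pi / 2 * σ))) ^ j.natAbs) W ∧ W ≤ 4 := by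
  set r : ℝ := Real.exp (-(Real.pi / 2 * σ)) with hr
  have hr0 : 0 < r := Real.exp_pos _
  have hr1 : r < 1 := by
    rw [hr, Real.exp_lt_one_iff]
    have := Real.pi_pos
    have : 0 < Real.pi / 2 * σ := by positivity
    linarith
  have hg : HasSum (fun n : ℕ => r ^ n) (1 - r)⁻¹ := hasSum_geometric_of_lt_one hr0.le hr1
  have h1 : HasSum (fun n : ℕ => (fun j : ℤ => σ * r ^ j.natAbs) (n : ℤ)) (σ * (1 - r)⁻¹) := by
    have := hg.mul_left σ
    simpa using this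
  have h2 : HasSum (fun n : ℕ => (fun j : ℤ => σ * r ^ j.natAbs) (-((n : ℤ) + 1)))
      (σ * r * (1 - r)⁻¹) := by
    have := hg.mul_left (σ * r)
    refine this.congr_fun ?_ |> fun h => h
    intro n
    show σ * r ^ (-((n : ℤ) + 1)).natAbs = σ * r * r ^ n
    have : (-((n : ℤ) + 1)).natAbs = n + 1 := by omega
    rw [this, pow_succ]
    ring
  refine ⟨_, HasSum.of_nat_of_neg_add_one h1 h2, ?_⟩
  have h3 : 0 < 1 - r := by linarith
  have hx0 : 0 < Real.pi / 2 * σ := by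
    have := Real.pi_pos
    positivity
  have h4 : σ ≤ 2 * (1 - r) := by
    have h5 : r * (1 + Real.pi / 2 * σ) ≤ 1 := by
      have h6 : 1 + Real.pi / 2 * σ ≤ Real.exp (Real.pi / 2 * σ) := by
        have := Real.add_one_le_exp (Real.pi / 2 * σ)
        linarith
      calc r * (1 + Real.pi / 2 * σ) ≤ r * Real.exp (Real.pi / 2 * σ) :=
            mul_le_mul_of_nonneg_left h6 hr0.le
        _ = 1 := by rw [hr, ← Real.exp_add]; simp
    have h7 : Real.pi / 2 * σ ≤ (1 - r) * (1 + Real.pi / 2 * σ) := by linarith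
    have h8 := Real.pi_gt_three
    have h9 := Real.pi_lt_four
    have h10 : (1 - r) * (1 + Real.pi / 2 * σ) ≤ (1 - r) * 3 := by
      apply mul_le_mul_of_nonneg_left _ h3.le
      nlinarith
    nlinarith
  have h5 : σ * (1 - r)⁻¹ ≤ 2 := by
    rw [← div_eq_mul_inv, div_le_iff₀ h3]
    exact h4
  have h6 : σ * r * (1 - r)⁻¹ ≤ 2 := by
    have h7 : σ * r * (1 - r)⁻¹ = (σ * (1 - r)⁻¹) * r := by ring
    rw [h7]
    have h8 : 0 ≤ σ * (1 - r)⁻¹ := by positivity
    nlinarith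
  linarith

theorem sum_c {σ t : ℝ} (hσ : 0 < σ) (hσ1 : σ ≤ 1) (ht : |t| ≤ 1 / 2) :
    Summable (c σ t) ∧ ∀ F : Finset ℤ, ∑ j ∈ F, c σ t j ≤ 12 := by
  obtain ⟨W, hW, hW4⟩ := sum_r hσ hσ1
  have hW' := hW.mul_left (Real.exp (Real.pi / 4))
  have hs : Summable (c σ t) :=
    Summable.of_nonneg_of_le (c_nonneg σ t) (c_le hσ ht) hW'.summable
  refine ⟨hs, fun F => ?_⟩
  have hD : Real.exp (Real.pi / 4) ≤ 3 := by
    have h1 : Real.pi / 4 ≤ 1 := by
      have := Real.pi_lt_four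
      linarith
    have h2 := Real.exp_le_exp.2 h1
    have h3 := Real.exp_one_lt_d9
    linarith
  have hW0 : 0 ≤ W := hW.nonneg (fun j => by positivity)
  calc ∑ j ∈ F, c σ t j ≤ ∑ j ∈ F, Real.exp (Real.pi / 4) *
        (σ * (Real.exp (-(Real.pi / 2 * σ))) ^ j.natAbs) :=
        Finset.sum_le_sum fun j _ => c_le hσ ht j
    _ ≤ Real.exp (Real.pi / 4) * W :=
        sum_le_hasSum F (fun j _ => by positivity) hW'
    _ ≤ 3 * 4 := mul_le_mul hD hW4 hW0 (by norm_num)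
    _ = 12 := by norm_num

noncomputable def z (k P : ℕ) (σ t : ℝ) (j : ℤ) (θ : ℝ) : ℂ :=
  if j = 0 then 0 else aa σ (t + j) * S k P (t + j) θ

theorem norm_z (k P : ℕ) (σ t : ℝ) (j : ℤ) (θ : ℝ) :
    ‖z k P σ t j θ‖ = c σ t j * ‖S k P (t + j) θ‖ := by
  unfold z c
  split_ifs
  · simp
  · rw [norm_mul]

theorem cont_z (k P : ℕ) (σ t : ℝ) (j : ℤ) : Continuous (fun θ => z k P σ t j θ) := by
  unfold z
  split_ifs
  · exact continuous_const
  · exact continuous_const.mul (cont_S k P _)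

theorem cs (k P : ℕ) (σ t θ : ℝ) (F : Finset ℤ) :
    ‖∑ j ∈ F, z k P σ t j θ‖ ^ 2 ≤
      (∑ j ∈ F, c σ t j) * ∑ j ∈ F, c σ t j * ‖S k P (t + j) θ‖ ^ 2 := by
  have h1 : ‖∑ j ∈ F, z k P σ t j θ‖ ≤ ∑ j ∈ F, c σ t j * ‖S k P (t + j) θ‖ := by
    refine (norm_sum_le _ _).trans (le_of_eq ?_)
    exact Finset.sum_congr rfl fun j _ => norm_z k P σ t j θ
  have h2 := Finset.sum_mul_sq_le_sq_mul_sq F (fun j => Real.sqrt (c σ t j))
    (fun j => Real.sqrt (c σ t j) * ‖S k P (t + j) θ‖)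
  have e1 : ∀ j, Real.sqrt (c σ t j) * (Real.sqrt (c σ t j) * ‖S k P (t + j) θ‖) =
      c σ t j * ‖S k P (t + j) θ‖ := by
    intro j
    rw [← mul_assoc, Real.mul_self_sqrt (c_nonneg σ t j)]
  have e2 : ∀ j, Real.sqrt (c σ t j) ^ 2 = c σ t j := fun j => Real.sq_sqrt (c_nonneg σ t j)
  have e3 : ∀ j, (Real.sqrt (c σ t j) * ‖S k P (t + j) θ‖) ^ 2 =
      c σ t j * ‖S k P (t + j) θ‖ ^ 2 := by
    intro j
    rw [mul_pow, e2]
  simp only [e1, e2, e3] at h2
  exact (pow_le_pow_left₀ (norm_nonneg _) h1 2).trans h2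

theorem t_L2R (h1 : S_POI) (h2 : S_SQ) : S_L2R := by
  intro k hk
  refine ⟨12 * (12 * 9), by norm_num, ?_⟩
  intro P σ t hP hσ hσ1 ht
  obtain ⟨hcs, hcF⟩ := sum_c hσ hσ1 ht
  have hP1 : (1 : ℝ) ≤ P := by exact_mod_cast hP
  -- the rest
  have hR : ∀ θ, HasSum (fun j => z k P σ t j θ) (T k P σ t θ - aa σ t * S k P t θ) := by
    intro θ
    obtain ⟨h3, h4⟩ := h1 k P σ t θ hσ
    have h5 : HasSum (fun j : ℤ => aa σ (t + j) * S k P (t + j) θ) (T k P σ t θ) := by
      rw [h4]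
      exact h3.of_norm.hasSum
    have h6 := h5.sub (hasSum_ite_eq (0 : ℤ) (aa σ t * S k P t θ))
    refine h6.congr_fun ?_ |> fun h => h
    intro j
    unfold z
    by_cases hj : j = 0
    · subst hj
      simp
    · simp [hj]
  have hbd : ∀ j θ, ‖z k P σ t j θ‖ ≤ c σ t j * (3 * P) := by
    intro j θ
    rw [norm_z]
    exact mul_le_mul_of_nonneg_left (norm_S k P _ θ) (c_nonneg σ t j)
  have hcont : Continuous (fun θ => T k P σ t θ - aa σ t * S k P t θ) := by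
    have h3 : (fun θ => T k P σ t θ - aa σ t * S k P t θ) = fun θ => ∑' j, z k P σ t j θ := by
      funext θ
      exact (hR θ).tsum_eq.symm
    rw [h3]
    exact continuous_tsum (cont_z k P σ t) (hcs.mul_right (3 * (P : ℝ))) hbd
  refine ⟨(hcont.norm.pow 2).intervalIntegrable _ _, ?_⟩
  -- finite sums
  have hfin : ∀ F : Finset ℤ, ∫ θ in (0 : ℝ)..1, ‖∑ j ∈ F, z k P σ t j θ‖ ^ 2 ≤
      12 * (12 * 9) * P := by
    intro F
    have hcF0 : 0 ≤ ∑ j ∈ F, c σ t j := Finset.sum_nonneg fun j _ => c_nonneg σ t j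
    have h3 : ∫ θ in (0 : ℝ)..1, ‖∑ j ∈ F, z k P σ t j θ‖ ^ 2 ≤
        ∫ θ in (0 : ℝ)..1, (∑ j ∈ F, c σ t j) * ∑ j ∈ F, c σ t j * ‖S k P (t + j) θ‖ ^ 2 := by
      apply intervalIntegral.integral_mono_on (by norm_num)
      · exact ((continuous_finset_sum F fun j _ => cont_z k P σ t j).norm.pow 2).intervalIntegrable _ _
      · exact (continuous_const.mul (continuous_finset_sum F fun j _ =>
          continuous_const.mul ((cont_S k P _).norm.pow 2))).intervalIntegrable _ _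
      · intro θ _
        exact cs k P σ t θ F
    have h4 : ∫ θ in (0 : ℝ)..1, (∑ j ∈ F, c σ t j) * ∑ j ∈ F, c σ t j * ‖S k P (t + j) θ‖ ^ 2 =
        (∑ j ∈ F, c σ t j) * ∑ j ∈ F, c σ t j * ∫ θ in (0 : ℝ)..1, ‖S k P (t + j) θ‖ ^ 2 := by
      rw [intervalIntegral.integral_const_mul, intervalIntegral.integral_finset_sum]
      · congr 1
        exact Finset.sum_congr rfl fun j _ => intervalIntegral.integral_const_mul _ _
      · intro j _
        exact (continuous_const.mul ((cont_S k P _).norm.pow 2)).intervalIntegrable _ _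
    have h5 : ∑ j ∈ F, c σ t j * ∫ θ in (0 : ℝ)..1, ‖S k P (t + j) θ‖ ^ 2 ≤
        ∑ j ∈ F, c σ t j * (9 * P) := by
      apply Finset.sum_le_sum
      intro j _
      by_cases hj : j = 0
      · unfold c
        rw [if_pos hj, zero_mul, zero_mul]
      · apply mul_le_mul_of_nonneg_left _ (c_nonneg σ t j)
        obtain ⟨h6, h7⟩ := habs ht hj
        have h8 : t + (j : ℝ) ≠ 0 := by
          intro h
          rw [h, abs_zero] at h7
          norm_num at h7
        have h9 := h2 k P (t + j) hk hP h8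
        have h10 : Real.log (3 * P) ≤ 3 * P - 1 := Real.log_le_sub_one_of_pos (by positivity)
        have h11 : 0 ≤ Real.log (3 * P) := Real.log_nonneg (by linarith)
        have h12 : (1 : ℝ) ≤ (P : ℝ) ^ (k - 2) := one_le_pow₀ hP1
        have h13 : 1 / 2 ≤ |t + (j : ℝ)| * (P : ℝ) ^ (k - 2) := by nlinarith [abs_nonneg (t + (j : ℝ))]
        have h14 : (1 + Real.log (3 * P)) / (|t + (j : ℝ)| * (P : ℝ) ^ (k - 2)) ≤ 6 * P := by
          rw [div_le_iff₀ (by linarith)]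
          nlinarith
        linarith
    have h6 : ∑ j ∈ F, c σ t j * (9 * (P : ℝ)) ≤ 12 * (9 * P) := by
      rw [← Finset.sum_mul]
      exact mul_le_mul_of_nonneg_right (hcF F) (by positivity)
    calc _ ≤ _ := h3
      _ = _ := h4
      _ ≤ (∑ j ∈ F, c σ t j) * (12 * (9 * P)) := mul_le_mul_of_nonneg_left (h5.trans h6) hcF0
      _ ≤ 12 * (12 * (9 * P)) := mul_le_mul_of_nonneg_right (hcF F) (by positivity)
      _ = _ := by ring
  -- the limit
  have hlim : Tendsto (fun F : Finset ℤ => ∫ θ in (0 : ℝ)..1, ‖∑ j ∈ F, z k P σ t j θ‖ ^ 2) atTop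
      (𝓝 (∫ θ in (0 : ℝ)..1, ‖T k P σ t θ - aa σ t * S k P t θ‖ ^ 2)) := by
    apply intervalIntegral.tendsto_integral_filter_of_dominated_convergence
      (fun _ => (12 * (3 * (P : ℝ))) ^ 2)
    · filter_upwards with F
      exact ((continuous_finset_sum F fun j _ => cont_z k P σ t j).norm.pow 2).aestronglyMeasurable
    · filter_upwards with F
      filter_upwards with θ _
      rw [Real.norm_of_nonneg (by positivity)]
      apply pow_le_pow_left₀ (norm_nonneg _)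
      refine (norm_sum_le _ _).trans ?_
      refine (Finset.sum_le_sum fun j _ => hbd j θ).trans ?_
      rw [← Finset.sum_mul]
      exact mul_le_mul_of_nonneg_right (hcF F) (by positivity)
    · exact intervalIntegrable_const
    · filter_upwards with θ _
      exact ((hR θ).norm).pow 2
  exact le_of_tendsto' hlim hfin

end Pool.Agent.W918.WT
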